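import Mathlib

set_option autoImplicit false

/-!
# Numerical inequalities for the class sizes
-/

namespace KalaiRank

open Finset

namespace FM

/-- The weight of a class with `p` elements at the threshold `m`. -/
def gm (m p : ℕ) : ℕ := ∑ j ∈ range p, (m - j)

theorem gm_succ (m p : ℕ) : gm m (p + 1) = gm m p + (m - p) := sum_range_succ _ _

theorem gm_part (m : ℕ) : ∀ p, p ≤ m → 2 * gm m p + p * p = p * (2 * m + 1) := by
  intro p
  induction p with
  | zero =>
    intro _
    simp [gm]
  | succ p ih =>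
    intro h
    have h1 := ih (by omega)
    rw [gm_succ]
    obtain ⟨k, hk⟩ : ∃ k, m = p + 1 + k := ⟨m - (p + 1), by omega⟩
    have h2 : m - p = k + 1 := by omega
    rw [h2]
    subst hk
    nlinarith

theorem gm_full (m p : ℕ) (h : m ≤ p) : 2 * gm m p = m * (m + 1) := by
  induction p with
  | zero =>
    have h1 : m = 0 := by omega
    subst h1
    simp [gm]
  | succ p ih =>
    rcases Nat.lt_or_ge p m with h1 | h1
    · have h2 : m = p + 1 := by omega
      subst h2
      have h3 := gm_part (p + 1) (p + 1) le_rfl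
      nlinarith
    · rw [gm_succ, mul_add, ih h1]
      have h2 : m - p = 0 := by omega
      rw [h2, mul_zero, add_zero]

theorem gm_ge (m p : ℕ) (h : p ≤ m) : p * (m + 1) ≤ 2 * gm m p := by
  have h1 := gm_part m p h
  nlinarith [Nat.mul_le_mul_left p h]

variable {κ : Type*} [DecidableEq κ]

omit [DecidableEq κ] in
/-- Many elements in classes: the weights add up to a full class. -/
theorem sum_gm_ge (J : Finset κ) (p : κ → ℕ) (m : ℕ) (h : m ≤ ∑ i ∈ J, p i) :
    m * (m + 1) ≤ 2 * ∑ i ∈ J, gm m (p i) := by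
  by_cases h1 : ∃ i ∈ J, m ≤ p i
  · obtain ⟨i, hi, hm⟩ := h1
    have h2 : gm m (p i) ≤ ∑ i ∈ J, gm m (p i) :=
      single_le_sum (f := fun i => gm m (p i)) (fun _ _ => Nat.zero_le _) hi
    have h3 := gm_full m (p i) hm
    omega
  · push Not at h1
    rw [mul_sum]
    calc m * (m + 1) ≤ (∑ i ∈ J, p i) * (m + 1) := Nat.mul_le_mul_right _ h
      _ = ∑ i ∈ J, p i * (m + 1) := sum_mul _ _ _
      _ ≤ ∑ i ∈ J, 2 * gm m (p i) := sum_le_sum fun i hi => gm_ge m (p i) (h1 i hi).le

/-- Truncated subtraction and sums. -/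
theorem sum_sub_le (J : Finset κ) (z : κ → ℕ) (b : ℕ) :
    ∑ i ∈ J, (z i - b) ≤ (∑ i ∈ J, z i) - b := by
  induction J using Finset.induction_on with
  | empty => simp
  | insert i J hi ih =>
    rw [sum_insert hi, sum_insert hi]
    have h1 : ∑ i ∈ J, (z i - b) ≤ ∑ i ∈ J, z i := sum_le_sum fun i _ => Nat.sub_le _ _
    omega

/-- The correction term. -/
def rho (b p : ℕ) : ℤ := if p < b then (p : ℤ) * (2 * b - 1 - p) else
  (b : ℤ) * (b - 1) + ((p : ℤ) - b) * ((p : ℤ) - b - 1)

theorem rho_nonneg (b p : ℕ) : 0 ≤ rho b p := by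
  unfold rho
  split_ifs with h
  · have h1 : (p : ℤ) + 1 ≤ b := by exact_mod_cast h
    have h2 : (0 : ℤ) ≤ p := by positivity
    nlinarith
  · push Not at h
    have h1 : (b : ℤ) ≤ p := by exact_mod_cast h
    have h2 : (0 : ℤ) ≤ (b : ℤ) * (b - 1) := by
      rcases Nat.eq_zero_or_pos b with h3 | h3
      · subst h3
        simp
      · have h4 : (1 : ℤ) ≤ b := by exact_mod_cast h3
        nlinarith
    have h3 : (0 : ℤ) ≤ ((p : ℤ) - b) * ((p : ℤ) - b - 1) := by
      rcases eq_or_lt_of_le h1 with h4 | h4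
      · rw [h4]
        simp
      · nlinarith
    linarith

theorem rho_big (b p : ℕ) (h : b ≤ p) : (b : ℤ) * (b - 1) ≤ rho b p := by
  unfold rho
  rw [if_neg (by omega)]
  have h1 : (b : ℤ) ≤ p := by exact_mod_cast h
  have h3 : (0 : ℤ) ≤ ((p : ℤ) - b) * ((p : ℤ) - b - 1) := by
    rcases eq_or_lt_of_le h1 with h4 | h4
    · rw [h4]
      simp
    · nlinarith
  linarith

theorem rho_small (b p : ℕ) (h : p < b) : (b : ℤ) * p ≤ rho b p := by
  unfold rho
  rw [if_pos h]
  have h1 : (p : ℤ) + 1 ≤ b := by exact_mod_cast h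
  have h2 : (0 : ℤ) ≤ p := by positivity
  nlinarith

theorem weight_eq (m b p : ℕ) (h : p ≤ m) :
    2 * (gm m p : ℤ) + 2 * ((p - b : ℕ) : ℤ) ^ 2 = 2 * ((m : ℤ) - b + 1) * p + rho b p := by
  have h1 : 2 * (gm m p : ℤ) + p * p = p * (2 * m + 1) := by exact_mod_cast gm_part m p h
  unfold rho
  split_ifs with h2
  · rw [Nat.sub_eq_zero_of_le h2.le]
    push_cast
    linear_combination h1
  · push Not at h2
    rw [Nat.cast_sub h2]
    linear_combination h1

theorem numN (J : Finset κ) (p : κ → ℕ) (m b : ℕ) (h : ∑ i ∈ J, p i = m + b) :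
    m * (m + 1) ≤ ∑ i ∈ J, (gm m (p i) + (p i - b) ^ 2) := by
  by_cases h1 : ∃ j ∈ J, m ≤ p j
  · -- a second large class
    obtain ⟨j, hj, hm⟩ := h1
    have h2 := add_sum_erase J p hj
    have h3 := add_sum_erase J (fun i => gm m (p i) + (p i - b) ^ 2) hj
    have h4 := gm_full m (p j) hm
    obtain ⟨r, hr⟩ : ∃ r, r = ∑ i ∈ J.erase j, p i := ⟨_, rfl⟩
    rw [← hr] at h2
    have h5 : ∑ i ∈ J.erase j, gm m (p i) ≤ ∑ i ∈ J.erase j, (gm m (p i) + (p i - b) ^ 2) :=
      sum_le_sum fun i _ => Nat.le_add_right _ _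
    rcases Nat.lt_or_ge r m with h6 | h6
    · have h7 : p j - b = m - r := by omega
      have h8 : r * (2 * m + 1 - r) ≤ 2 * ∑ i ∈ J.erase j, gm m (p i) := by
        rw [mul_sum, hr, sum_mul, ← hr]
        refine sum_le_sum fun i hi => ?_
        have h9 : p i ≤ r := by
          rw [hr]
          exact single_le_sum (f := p) (fun _ _ => Nat.zero_le _) hi
        have h10 := gm_part m (p i) (by omega)
        obtain ⟨e, he⟩ : ∃ e, 2 * m + 1 = r + e := ⟨2 * m + 1 - r, by omega⟩
        have h11 : 2 * m + 1 - r = e := by omega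
        rw [h11]
        rw [he] at h10
        nlinarith [Nat.mul_le_mul_left (p i) h9]
      obtain ⟨e, he⟩ : ∃ e, m = r + e := ⟨m - r, by omega⟩
      have h12 : 1 ≤ e := by omega
      have h13 : m - r = e := by omega
      have h14 : 2 * m + 1 - r = r + 2 * e + 1 := by omega
      rw [h7, h13] at h3
      rw [h14] at h8
      have h15 : e ≤ e ^ 2 := by nlinarith
      have h16 : m * (m + 1) = r * r + 2 * r * e + e * e + r + e := by
        rw [he]
        ring
      nlinarith
    · have h8 := sum_gm_ge (J.erase j) p m (by rw [← hr]; exact h6)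
      have h9 := Nat.zero_le ((p j - b) ^ 2)
      nlinarith
  · push Not at h1
    rcases Nat.lt_or_ge b m with h2 | h2
    · -- the main case
      have h3 : 2 * ∑ i ∈ J, ((gm m (p i) : ℤ) + ((p i - b : ℕ) : ℤ) ^ 2) =
          2 * ((m : ℤ) - b + 1) * (m + b) + ∑ i ∈ J, rho b (p i) := by
        have h4 : ((m : ℤ) + b) = ∑ i ∈ J, (p i : ℤ) := by
          rw [← Nat.cast_sum, h]
          push_cast
          ring
        rw [h4, mul_sum, mul_sum, ← sum_add_distrib]
        refine sum_congr rfl fun i hi => ?_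
        rw [mul_add]
        exact weight_eq m b (p i) (h1 i hi).le
      have h5 : 2 * ((b : ℤ) * (b - 1)) ≤ ∑ i ∈ J, rho b (p i) := by
        rcases Nat.eq_zero_or_pos b with hb | hb
        · subst hb
          simp only [Nat.cast_zero, zero_mul, mul_zero]
          exact sum_nonneg fun i _ => rho_nonneg 0 (p i)
        have hb1 : (1 : ℤ) ≤ b := by exact_mod_cast hb
        have hsplit : ∑ i ∈ J, rho b (p i) = ∑ i ∈ J.filter (fun i => b ≤ p i), rho b (p i) +
            ∑ i ∈ J.filter (fun i => ¬ b ≤ p i), rho b (p i) :=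
          (sum_filter_add_sum_filter_not J _ _).symm
        have hpsplit : ∑ i ∈ J, p i = ∑ i ∈ J.filter (fun i => b ≤ p i), p i +
            ∑ i ∈ J.filter (fun i => ¬ b ≤ p i), p i :=
          (sum_filter_add_sum_filter_not J _ _).symm
        have hsm : (b : ℤ) * ∑ i ∈ J.filter (fun i => ¬ b ≤ p i), (p i : ℤ) ≤
            ∑ i ∈ J.filter (fun i => ¬ b ≤ p i), rho b (p i) := by
          rw [mul_sum]
          refine sum_le_sum fun i hi => ?_
          rw [mem_filter] at hi
          exact rho_small b (p i) (by omega)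
        have hbg : ((J.filter (fun i => b ≤ p i)).card : ℤ) * ((b : ℤ) * (b - 1)) ≤
            ∑ i ∈ J.filter (fun i => b ≤ p i), rho b (p i) := by
          rw [← nsmul_eq_mul, ← sum_const]
          refine sum_le_sum fun i hi => ?_
          rw [mem_filter] at hi
          exact rho_big b (p i) hi.2
        have hbb : (0 : ℤ) ≤ (b : ℤ) * (b - 1) := by nlinarith
        have hsm0 : (0 : ℤ) ≤ ∑ i ∈ J.filter (fun i => ¬ b ≤ p i), (p i : ℤ) :=
          sum_nonneg fun i _ => by positivity
        rcases Nat.lt_or_ge (J.filter (fun i => b ≤ p i)).card 2 with h6 | h6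
        · have h7 : ∑ i ∈ J.filter (fun i => b ≤ p i), p i ≤ m := by
            calc ∑ i ∈ J.filter (fun i => b ≤ p i), p i
                ≤ ∑ i ∈ J.filter (fun i => b ≤ p i), m :=
                  sum_le_sum fun i hi => (h1 i (mem_filter.1 hi).1).le
              _ = (J.filter (fun i => b ≤ p i)).card * m := by rw [sum_const, smul_eq_mul]
              _ ≤ 1 * m := Nat.mul_le_mul_right _ (by omega)
              _ = m := one_mul m
          have h8 : b ≤ ∑ i ∈ J.filter (fun i => ¬ b ≤ p i), p i := by omega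
          have h9 : (b : ℤ) ≤ ∑ i ∈ J.filter (fun i => ¬ b ≤ p i), (p i : ℤ) := by
            exact_mod_cast h8
          rcases Nat.eq_zero_or_pos (J.filter (fun i => b ≤ p i)).card with h10 | h10
          · rw [card_eq_zero] at h10
            rw [h10, sum_empty, zero_add] at hpsplit
            have h11 : ((m : ℤ) + b) = ∑ i ∈ J.filter (fun i => ¬ b ≤ p i), (p i : ℤ) := by
              rw [← Nat.cast_sum, ← hpsplit, h]
              push_cast
              ring
            have h12 : (b : ℤ) < m := by exact_mod_cast h2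
            have h13 : (0 : ℤ) ≤ ∑ i ∈ J.filter (fun i => b ≤ p i), rho b (p i) :=
              sum_nonneg fun i _ => rho_nonneg b (p i)
            rw [hsplit]
            nlinarith
          · have h11 : (1 : ℤ) ≤ ((J.filter (fun i => b ≤ p i)).card : ℤ) := by exact_mod_cast h10
            rw [hsplit]
            nlinarith
        · have h7 : (2 : ℤ) ≤ ((J.filter (fun i => b ≤ p i)).card : ℤ) := by exact_mod_cast h6
          rw [hsplit]
          nlinarith
      have h6 : 2 * ((m : ℤ) * (m + 1)) ≤ 2 * ∑ i ∈ J, ((gm m (p i) : ℤ) + ((p i - b : ℕ) : ℤ) ^ 2) := by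
        rw [h3]
        nlinarith
      have h7 : ((m * (m + 1) : ℕ) : ℤ) ≤ ((∑ i ∈ J, (gm m (p i) + (p i - b) ^ 2) : ℕ) : ℤ) := by
        push_cast
        linarith
      exact_mod_cast h7
    · have h3 : 2 * (m * (m + 1)) ≤ 2 * ∑ i ∈ J, (gm m (p i) + (p i - b) ^ 2) := by
        rw [mul_sum]
        calc 2 * (m * (m + 1)) ≤ (m + b) * (m + 1) := by nlinarith
          _ = ∑ i ∈ J, p i * (m + 1) := by rw [← h, sum_mul]
          _ ≤ ∑ i ∈ J, 2 * (gm m (p i) + (p i - b) ^ 2) := by
              refine sum_le_sum fun i hi => ?_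
              have h4 := gm_ge m (p i) (h1 i hi).le
              omega
      omega

end FM

end KalaiRank
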