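import Pool.Agent.Lib.MP_8317a8_co.FD.Ori
import Pool.Agent.Lib.MP_8317a8_co.FM.Num

set_option autoImplicit false

/-!
# The degree inequality for orientations of complete multipartite graphs, any number of classes
-/

namespace KalaiRank

open Finset

namespace FM

open FD

variable {V κ : Type*} [DecidableEq V] [DecidableEq κ] {c : V → κ} {r : V → V → Prop}
  [DecidableRel r]

/-- The class `i` inside `U`. -/
def cl (c : V → κ) (U : Finset V) (i : κ) : Finset V := U.filter (fun v => c v = i)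

omit [DecidableEq V] in
theorem mem_cl (U : Finset V) (i : κ) (v : V) : v ∈ cl c U i ↔ v ∈ U ∧ c v = i := by
  unfold cl
  rw [mem_filter]

omit [DecidableEq V] in
theorem sum_cl (U : Finset V) : ∑ i ∈ U.image c, (cl c U i).card = U.card :=
  (card_eq_sum_card_fiberwise (f := c) (s := U) (t := U.image c)
    (fun _ hv => mem_image_of_mem c hv)).symm

/-- Twice the number of arcs. -/
theorem two_arcs (h : Ori c r) (U : Finset V) :
    2 * ∑ v ∈ U, out r U v + ∑ i ∈ U.image c, (cl c U i).card ^ 2 = U.card ^ 2 := by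
  have h1 : ∑ v ∈ U, out r U v = ∑ v ∈ U, ∑ w ∈ U, (if r v w then 1 else 0) := by
    refine sum_congr rfl fun v _ => ?_
    unfold out
    rw [card_filter]
  have h2 : ∑ v ∈ U, out r U v = ∑ v ∈ U, ∑ w ∈ U, (if r w v then 1 else 0) := by
    rw [h1, sum_comm]
  have h3 : ∑ i ∈ U.image c, (cl c U i).card ^ 2 =
      ∑ v ∈ U, ∑ w ∈ U, (if c v = c w then 1 else 0) := by
    have h4 : ∀ v ∈ U, ∑ w ∈ U, (if c v = c w then 1 else 0) = (cl c U (c v)).card := by
      intro v _
      unfold cl
      rw [card_filter]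
      refine sum_congr rfl fun w _ => ?_
      by_cases h5 : c v = c w
      · rw [if_pos h5, if_pos h5.symm]
      · rw [if_neg h5, if_neg (fun h6 => h5 h6.symm)]
    rw [sum_congr rfl h4, ← sum_fiberwise_of_maps_to (g := c) (t := U.image c)
      (fun v hv => mem_image_of_mem c hv)]
    refine sum_congr rfl fun i _ => ?_
    have h5 : ∀ v ∈ U.filter (fun v => c v = i), (cl c U (c v)).card = (cl c U i).card := by
      intro v hv
      rw [mem_filter] at hv
      rw [hv.2]
    rw [sum_congr rfl h5, sum_const, smul_eq_mul, pow_two]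
    rfl
  rw [two_mul]
  nth_rewrite 1 [h1]
  rw [h2, h3, ← sum_add_distrib, ← sum_add_distrib, pow_two, ← smul_eq_mul, ← sum_const]
  refine sum_congr rfl fun v _ => ?_
  rw [← sum_add_distrib, ← sum_add_distrib, ← mul_one U.card, ← smul_eq_mul, ← sum_const]
  refine sum_congr rfl fun w _ => ?_
  by_cases h4 : c v = c w
  · rw [if_pos h4, if_neg (fun h5 => h.ne _ _ h5 h4), if_neg (fun h5 => h.ne _ _ h5 h4.symm)]
    norm_num
  · rw [if_neg h4]
    rcases h.tot v w h4 with h5 | h5
    · rw [if_pos h5, if_neg (h.asym _ _ h5)]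
      norm_num
    · rw [if_pos h5, if_neg (h.asym _ _ h5)]
      norm_num

omit [DecidableEq κ] in
/-- The lowest elements of a class. -/
theorem exists_low (P : Finset V) (y : V → ℕ) (q : ℕ) (hq : q ≤ P.card) :
    ∃ Q ⊆ P, Q.card = q ∧ ∀ w ∈ Q, ∀ w' ∈ P, w' ∉ Q → y w ≤ y w' := by
  obtain ⟨Q, hQ, hmin⟩ := exists_min_image (powersetCard q P) (fun Q => ∑ w ∈ Q, y w)
    (powersetCard_nonempty.2 hq)
  rw [mem_powersetCard] at hQ
  refine ⟨Q, hQ.1, hQ.2, ?_⟩
  intro w hw w' hw' hn
  have h1 : w' ∉ Q.erase w := fun h => hn (mem_of_mem_erase h)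
  have h2 := hmin (insert w' (Q.erase w)) (by
    rw [mem_powersetCard]
    constructor
    · intro x hx
      rw [mem_insert] at hx
      rcases hx with rfl | hx
      · exact hw'
      · exact hQ.1 (mem_of_mem_erase hx)
    · rw [card_insert_of_notMem h1, card_erase_of_mem hw, hQ.2]
      have : 0 < Q.card := card_pos.2 ⟨w, hw⟩
      omega)
  rw [sum_insert h1] at h2
  have h3 := add_sum_erase Q y hw
  omega

theorem chain_bound (h : Ori c r) (U : Finset V) (m b : ℕ) (i₀ : κ)
    (hT : ∑ i ∈ (U.image c).erase i₀, (cl c U i).card = m + b) :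
    ∑ j ∈ (U.image c).erase i₀, ((cl c U j).card - b) ^ 2 ≤ ∑ v ∈ U, (m - out r U v) := by
  obtain ⟨K, hK⟩ : ∃ K, K = (U.image c).erase i₀ := ⟨_, rfl⟩
  rw [← hK] at hT ⊢
  have hKne : ∀ j ∈ K, j ≠ i₀ := fun j hj => by
    rw [hK, mem_erase] at hj
    exact hj.1
  obtain ⟨P, hP⟩ : ∃ P, P = cl c U i₀ := ⟨_, rfl⟩
  obtain ⟨R, hR⟩ : ∃ R, R = U.filter (fun v => c v ≠ i₀) := ⟨_, rfl⟩
  have mR : ∀ v, v ∈ R ↔ v ∈ U ∧ c v ≠ i₀ := fun v => by rw [hR, mem_filter]
  have mP : ∀ v, v ∈ P ↔ v ∈ U ∧ c v = i₀ := fun v => by rw [hP, mem_cl]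
  have hmaps : ∀ v ∈ R, c v ∈ K := fun v hv => by
    rw [mR] at hv
    rw [hK, mem_erase]
    exact ⟨hv.2, mem_image_of_mem c hv.1⟩
  have hRcl : ∀ j ∈ K, R.filter (fun v => c v = j) = cl c U j := by
    intro j hj
    ext v
    rw [mem_filter, mR, mem_cl]
    constructor
    · rintro ⟨⟨h1, _⟩, h2⟩
      exact ⟨h1, h2⟩
    · rintro ⟨h1, h2⟩
      exact ⟨⟨h1, by rw [h2]; exact hKne j hj⟩, h2⟩
  have hRc : R.card = m + b := by
    rw [← hT, card_eq_sum_card_fiberwise hmaps]
    exact sum_congr rfl fun j hj => by rw [hRcl j hj]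
  -- the lowest elements
  have hex : ∀ j : κ, ∃ Q ⊆ cl c U j, Q.card = (cl c U j).card - b ∧
      ∀ w ∈ Q, ∀ w' ∈ cl c U j, w' ∉ Q → (P.filter (r w)).card ≤ (P.filter (r w')).card :=
    fun j => exists_low (cl c U j) (fun w => (P.filter (r w)).card) _ (Nat.sub_le _ _)
  choose Q hQsub hQc hQmin using hex
  obtain ⟨z, hz⟩ : ∃ z : V → κ → ℕ, z = fun v j => ((cl c U j).filter (fun w => r w v)).card :=
    ⟨_, rfl⟩
  -- Claim 1
  have c1 : ∀ j ∈ K, ∀ v ∈ P, ((Q j).filter (fun w => r w v)).card ≤ z v j - b := by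
    intro j hj v hv
    rcases ((Q j).filter (fun w => r w v)).eq_empty_or_nonempty with h0 | h0
    · rw [h0, card_empty]
      exact Nat.zero_le _
    · obtain ⟨w, hw⟩ := h0
      rw [mem_filter] at hw
      have h1 : (cl c U j \ Q j) ∪ (Q j).filter (fun w => r w v) ⊆
          (cl c U j).filter (fun w => r w v) := by
        intro w' hw'
        rw [mem_union, mem_sdiff, mem_filter] at hw'
        rw [mem_filter]
        rcases hw' with ⟨h2, h3⟩ | ⟨h2, h3⟩
        · refine ⟨h2, ?_⟩
          have h4 := hQmin j w hw.1 w' h2 h3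
          have hcw : c w = j := ((mem_cl U j w).1 (hQsub j hw.1)).2
          have hcw' : c w' = j := ((mem_cl U j w').1 h2).2
          have h5 : P.filter (r w) ⊆ P.filter (r w') := by
            rcases chain h (v := w) (v' := w') (hcw.trans hcw'.symm) (Q := P) (j := i₀)
              (fun x hx => ((mP x).1 hx).2) (by rw [hcw]; exact (hKne j hj).symm) with h6 | h6
            · exact h6
            · rw [eq_of_subset_of_card_le h6 h4]
          have h6 : v ∈ P.filter (r w) := mem_filter.2 ⟨hv, hw.2⟩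
          exact (mem_filter.1 (h5 h6)).2
        · exact ⟨hQsub j h2, h3⟩
      have h2 := card_le_card h1
      have h3 : Disjoint (cl c U j \ Q j) ((Q j).filter (fun w => r w v)) := by
        rw [disjoint_left]
        intro w' h4 h5
        rw [mem_sdiff] at h4
        exact h4.2 (mem_filter.1 h5).1
      rw [card_union_of_disjoint h3, card_sdiff_of_subset (hQsub j)] at h2
      have h4 := hQc j
      have h5 : 0 < (Q j).card := card_pos.2 ⟨w, hw.1⟩
      rw [hz]
      show _ ≤ ((cl c U j).filter (fun w => r w v)).card - b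
      omega
  -- Claim 2
  have c2 : ∀ v ∈ P, ∑ j ∈ K, (z v j - b) ≤ m - out r U v := by
    intro v hv
    have h1 := sum_sub_le K (z v) b
    have h2 : ∑ j ∈ K, z v j = (R.filter (fun w => r w v)).card := by
      rw [card_eq_sum_card_fiberwise (f := c) (t := K)
        (fun w hw => hmaps w (mem_filter.1 hw).1), hz]
      refine sum_congr rfl fun j hj => ?_
      show ((cl c U j).filter (fun w => r w v)).card = _
      rw [← hRcl j hj, filter_filter, filter_filter]
      congr 1
      ext w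
      rw [mem_filter, mem_filter]
      tauto
    have h3 : out r U v + (R.filter (fun w => r w v)).card ≤ R.card := by
      have h4 : U.filter (r v) ∪ R.filter (fun w => r w v) ⊆ R := by
        intro w hw
        rw [mem_union, mem_filter, mem_filter] at hw
        rcases hw with hw | hw
        · rw [mR]
          refine ⟨hw.1, ?_⟩
          rw [← ((mP v).1 hv).2]
          exact (h.ne _ _ hw.2).symm
        · exact hw.1
      have h5 : Disjoint (U.filter (r v)) (R.filter (fun w => r w v)) := by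
        rw [disjoint_left]
        intro w h6 h7
        rw [mem_filter] at h6 h7
        exact h.asym _ _ h6.2 h7.2
      have h6 := card_le_card h4
      rw [card_union_of_disjoint h5] at h6
      exact h6
    omega
  -- Claim 3
  have c3 : ∀ j ∈ K, ∀ w ∈ Q j, (cl c U j).card - b ≤
      (m - out r U w) + (P.filter (r w)).card := by
    intro j hj w hw
    have hwj := (mem_cl U j w).1 (hQsub j hw)
    have h1 : U.filter (r w) ⊆ P.filter (r w) ∪ (R \ cl c U j) := by
      intro x hx
      rw [mem_filter] at hx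
      rw [mem_union, mem_filter, mem_sdiff, mP, mR, mem_cl]
      by_cases h2 : c x = i₀
      · exact Or.inl ⟨⟨hx.1, h2⟩, hx.2⟩
      · refine Or.inr ⟨⟨hx.1, h2⟩, ?_⟩
        rintro ⟨_, h3⟩
        exact h.ne _ _ hx.2 (hwj.2.trans h3.symm)
    have h2 := (card_le_card h1).trans (card_union_le _ _)
    have h3 : cl c U j ⊆ R := by
      rw [← hRcl j hj]
      exact filter_subset _ _
    rw [card_sdiff_of_subset h3] at h2
    have h4 := card_le_card h3
    unfold out
    omega
  -- summation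
  have c4 : ∀ j ∈ K, ((cl c U j).card - b) ^ 2 ≤
      ∑ w ∈ cl c U j, (m - out r U w) + ∑ v ∈ P, (z v j - b) := by
    intro j hj
    have h1 : ((cl c U j).card - b) ^ 2 = ∑ w ∈ Q j, ((cl c U j).card - b) := by
      rw [sum_const, smul_eq_mul, hQc, pow_two]
    have h2 : ∑ w ∈ Q j, (P.filter (r w)).card = ∑ v ∈ P, ((Q j).filter (fun w => r w v)).card := by
      have h3 : ∀ w ∈ Q j, (P.filter (r w)).card = ∑ v ∈ P, (if r w v then 1 else 0) :=
        fun w _ => card_filter _ _
      have h4 : ∀ v ∈ P, ((Q j).filter (fun w => r w v)).card =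
          ∑ w ∈ Q j, (if r w v then 1 else 0) := fun v _ => card_filter _ _
      rw [sum_congr rfl h3, sum_congr rfl h4, sum_comm]
    have h3 : ∑ w ∈ Q j, (m - out r U w) ≤ ∑ w ∈ cl c U j, (m - out r U w) :=
      sum_le_sum_of_subset (hQsub j)
    calc ((cl c U j).card - b) ^ 2 = ∑ w ∈ Q j, ((cl c U j).card - b) := h1
      _ ≤ ∑ w ∈ Q j, ((m - out r U w) + (P.filter (r w)).card) := sum_le_sum (c3 j hj)
      _ = ∑ w ∈ Q j, (m - out r U w) + ∑ v ∈ P, ((Q j).filter (fun w => r w v)).card := by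
          rw [sum_add_distrib, h2]
      _ ≤ ∑ w ∈ cl c U j, (m - out r U w) + ∑ v ∈ P, (z v j - b) :=
          Nat.add_le_add h3 (sum_le_sum (c1 j hj))
  have hU : ∑ v ∈ U, (m - out r U v) = ∑ v ∈ P, (m - out r U v) + ∑ v ∈ R, (m - out r U v) := by
    rw [hP, hR]
    unfold cl
    exact (sum_filter_add_sum_filter_not U _ _).symm
  have hRs : ∑ v ∈ R, (m - out r U v) = ∑ j ∈ K, ∑ w ∈ cl c U j, (m - out r U w) := by
    rw [← sum_fiberwise_of_maps_to hmaps]
    exact sum_congr rfl fun j hj => by rw [hRcl j hj]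
  calc ∑ j ∈ K, ((cl c U j).card - b) ^ 2
      ≤ ∑ j ∈ K, (∑ w ∈ cl c U j, (m - out r U w) + ∑ v ∈ P, (z v j - b)) := sum_le_sum c4
    _ = ∑ v ∈ R, (m - out r U v) + ∑ v ∈ P, ∑ j ∈ K, (z v j - b) := by
        rw [sum_add_distrib, hRs, sum_comm (s := K) (t := P)]
    _ ≤ ∑ v ∈ R, (m - out r U v) + ∑ v ∈ P, (m - out r U v) :=
        Nat.add_le_add_left (sum_le_sum c2) _
    _ = ∑ v ∈ U, (m - out r U v) := by rw [hU, add_comm]

/-- The degree inequality at the threshold `m`. -/
theorem count_m (h : Ori c r) (U : Finset V) (m : ℕ) (hn : 3 * m ≤ U.card) :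
    3 * (m * (m + 1)) ≤
      2 * (∑ v ∈ U, (m - out r U v) + ∑ i ∈ U.image c, gm m (cl c U i).card) := by
  have hsum := sum_cl (c := c) U
  by_cases h0 : ∃ i ∈ U.image c, m ≤ (cl c U i).card
  · obtain ⟨i₀, hi₀, hm⟩ := h0
    have h1 := add_sum_erase (U.image c) (fun i => (cl c U i).card) hi₀
    have h2 := add_sum_erase (U.image c) (fun i => gm m (cl c U i).card) hi₀
    have h3 := gm_full m _ hm
    obtain ⟨T, hT⟩ : ∃ T, T = ∑ i ∈ (U.image c).erase i₀, (cl c U i).card := ⟨_, rfl⟩
    rcases Nat.lt_or_ge T m with h4 | h4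
    · -- few vertices outside the large class
      have h5 := two_arcs h U
      have h6 := add_sum_erase (U.image c) (fun i => (cl c U i).card ^ 2) hi₀
      have h7 : 2 * ∑ i ∈ (U.image c).erase i₀, gm m (cl c U i).card +
          ∑ i ∈ (U.image c).erase i₀, (cl c U i).card ^ 2 = T * (2 * m + 1) := by
        rw [mul_sum, ← sum_add_distrib, hT, sum_mul]
        refine sum_congr rfl fun i hi => ?_
        rw [pow_two]
        refine gm_part m _ ?_
        have h8 : (cl c U i).card ≤ T := by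
          rw [hT]
          exact single_le_sum (f := fun i => (cl c U i).card) (fun _ _ => Nat.zero_le _) hi
        omega
      have h8 : (m : ℤ) * U.card - ∑ v ∈ U, (out r U v : ℤ) ≤
          ((∑ v ∈ U, (m - out r U v) : ℕ) : ℤ) := by
        rw [Nat.cast_sum, mul_comm, ← nsmul_eq_mul, ← sum_const, ← sum_sub_distrib]
        refine sum_le_sum fun v _ => ?_
        omega
      obtain ⟨W, hW⟩ : ∃ W, W = ∑ v ∈ U, (m - out r U v) := ⟨_, rfl⟩
      obtain ⟨D, hD⟩ : ∃ D, D = ∑ v ∈ U, out r U v := ⟨_, rfl⟩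
      obtain ⟨g, hg⟩ : ∃ g, g = ∑ i ∈ (U.image c).erase i₀, gm m (cl c U i).card := ⟨_, rfl⟩
      obtain ⟨S, hS⟩ : ∃ S, S = ∑ i ∈ (U.image c).erase i₀, (cl c U i).card ^ 2 := ⟨_, rfl⟩
      obtain ⟨p, hp⟩ : ∃ p, p = (cl c U i₀).card := ⟨_, rfl⟩
      rw [← Nat.cast_sum, ← hD, ← hW] at h8
      rw [← hD] at h5
      rw [← hg, ← hS] at h7
      rw [← h2, ← hg, ← hW, ← hp]
      rw [← hp] at h3
      rw [hsum, ← hT, ← hp] at h1
      rw [← h6, ← hp, ← hS] at h5
      have e1 : (U.card : ℤ) = p + T := by exact_mod_cast h1.symm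
      have e5 : 2 * (D : ℤ) + (p ^ 2 + S) = (U.card : ℤ) ^ 2 := by exact_mod_cast h5
      have e7 : 2 * (g : ℤ) + S = T * (2 * m + 1) := by exact_mod_cast h7
      have e3 : 2 * (gm m p : ℤ) = m * (m + 1) := by exact_mod_cast h3
      have e4 : (T : ℤ) + 1 ≤ m := by exact_mod_cast h4
      have en : 3 * (m : ℤ) ≤ p + T := by
        rw [← e1]
        exact_mod_cast hn
      rw [e1] at h8 e5
      have e9 : (3 : ℤ) * (m * (m + 1)) ≤ 2 * (W + (gm m p + g)) := by
        have e10 : (0 : ℤ) ≤ ((p : ℤ) + T - 3 * m) * (m - T) :=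
          mul_nonneg (by linarith) (by linarith)
        have e11 : (0 : ℤ) ≤ (2 * (m : ℤ) - T) * (2 * m - T - 1) :=
          mul_nonneg (by linarith [(Nat.cast_nonneg T : (0 : ℤ) ≤ T)])
            (by linarith [(Nat.cast_nonneg m : (0 : ℤ) ≤ m)])
        nlinarith
      exact_mod_cast e9
    · -- many vertices outside the large class
      obtain ⟨b, hb⟩ : ∃ b, T = m + b := ⟨T - m, by omega⟩
      have h5 := chain_bound h U m b i₀ (by rw [← hT]; exact hb)
      have h6 := numN ((U.image c).erase i₀) (fun i => (cl c U i).card) m b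
        (by rw [← hT]; exact hb)
      rw [sum_add_distrib] at h6
      omega
  · push Not at h0
    have h1 : (3 * m) * (m + 1) ≤ 2 * ∑ i ∈ U.image c, gm m (cl c U i).card := by
      rw [mul_sum]
      calc (3 * m) * (m + 1) ≤ U.card * (m + 1) := Nat.mul_le_mul_right _ hn
        _ = ∑ i ∈ U.image c, (cl c U i).card * (m + 1) := by rw [← hsum, sum_mul]
        _ ≤ ∑ i ∈ U.image c, 2 * gm m (cl c U i).card :=
            sum_le_sum fun i hi => gm_ge m _ (h0 i hi).le
    have h2 : (3 * m) * (m + 1) = 3 * (m * (m + 1)) := by ring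
    omega

end FM

end KalaiRank
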