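import Pool.Agent.Lib.MP_8317a8_co.FD.Weights
import Pool.Agent.Lib.MP_8317a8_co.FM.Count

set_option autoImplicit false

/-!
# The potential, any number of classes
-/

namespace KalaiRank

open Finset

namespace FM

open FD

theorem cc_eq (d : ℕ) : ∀ s : ℕ, cc s d = ∑ m ∈ Icc 1 s, (m - d) := by
  intro s
  induction s with
  | zero => simp [cc]
  | succ s ih =>
    rw [sum_Icc_succ_top (by omega), ← ih]
    unfold cc
    have h1 : ∀ m ∈ Icc 1 s, (if d < m then s + 1 + 1 - m else 0) =
        (if d < m then s + 1 - m else 0) + (if d < m then 1 else 0) := by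
      intro m hm
      rw [mem_Icc] at hm
      split_ifs <;> omega
    rw [sum_Icc_succ_top (by omega), sum_congr rfl h1, sum_add_distrib]
    have h2 : ∑ m ∈ Icc 1 s, (if d < m then 1 else 0) + (if d < s + 1 then s + 1 + 1 - (s + 1) else 0) =
        s + 1 - d := by
      rw [← card_filter]
      have h3 : (Icc 1 s).filter (fun m => d < m) = Icc (d + 1) s := by
        ext m
        rw [mem_filter, mem_Icc, mem_Icc]
        omega
      rw [h3, Nat.card_Icc]
      split_ifs <;> omega
    omega

theorem gg_eq' (s p : ℕ) : gg s p = ∑ m ∈ Icc 1 s, gm m p := by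
  unfold gg gm
  rw [sum_comm]
  exact sum_congr rfl fun j _ => cc_eq j s

theorem sum_threshold (s : ℕ) : ∑ m ∈ Icc 1 s, 3 * (m * (m + 1)) = s * (s + 1) * (s + 2) := by
  induction s with
  | zero => simp
  | succ s ih =>
    rw [sum_Icc_succ_top (by omega), ih]
    ring

variable {V κ : Type*} [DecidableEq V] [DecidableEq κ] {c : V → κ} {r : V → V → Prop}
  [DecidableRel r]

/-- The potential inequality: the degree part and the class part. -/
theorem pot_ge (h : Ori c r) (s : ℕ) (U : Finset V) (hU : 3 * s ≤ U.card) :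
    s * (s + 1) * (s + 2) ≤
      2 * (∑ v ∈ U, cc s (out r U v) + ∑ i ∈ U.image c, gg s (cl c U i).card) := by
  have e1 : ∑ v ∈ U, cc s (out r U v) = ∑ m ∈ Icc 1 s, ∑ v ∈ U, (m - out r U v) := by
    rw [sum_comm]
    exact sum_congr rfl fun v _ => cc_eq _ s
  have e2 : ∑ i ∈ U.image c, gg s (cl c U i).card =
      ∑ m ∈ Icc 1 s, ∑ i ∈ U.image c, gm m (cl c U i).card := by
    rw [sum_comm]
    exact sum_congr rfl fun i _ => gg_eq' s _
  rw [e1, e2, ← sum_add_distrib, mul_sum, ← sum_threshold]
  refine sum_le_sum fun m hm => ?_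
  rw [mem_Icc] at hm
  exact count_m h U m (by omega)

end FM

end KalaiRank
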