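import Pool.Agent.Lib.MP_8317a8_co.FD.Bound
import Pool.Agent.Lib.MP_8317a8_co.FM.Weights

set_option autoImplicit false

/-!
# The kernel bound for Fon-Der-Flaass 3-graphs of orientations with at most four classes

`finrank (YSp G x U) + pot s c r U ≤ s (s + 1) |U|`: delete a vertex whose in-neighbours lie in two
classes (a vertex of two classes which is dominated by no vertex of the two classes).
-/

namespace KalaiRank

open Finset Module

namespace FM

open FD

/-- The potential of a vertex set. -/
def pot {V κ : Type*} [Fintype κ] [DecidableEq κ] (s : ℕ) (c : V → κ) (r : V → V → Prop)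
    [DecidableRel r] (U : Finset V) : ℕ :=
  ∑ v ∈ U, cc s (out r U v) + ∑ i : κ, gg s (U.filter (fun v => c v = i)).card

section alg

variable {K : Type*} [Field K] {V : Type*} [DecidableEq V] [Fintype V] {s : ℕ}
variable {κ : Type*} [Fintype κ] [DecidableEq κ]

omit [Fintype κ] in
theorem Sol_bound {x : V → Fin s → K} (hx : GenPos x) (hV : s ≤ Fintype.card V)
    {G : Finset (Finset V)} {c : V → κ} {r : V → V → Prop} [DecidableRel r] (h : Ori c r)
    (hG : HasFDF G c r) {U : Finset V} {v : V} (hv : v ∉ U) {i j : κ}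
    (hij : ∀ a ∈ U, r a v → c a = i ∨ c a = j) :
    finrank K (Sol G x v U) + cc s (out r U v) + cc s (U.filter (fun a => c a = c v)).card ≤
      2 * cc s 0 + ∑ a ∈ U.filter (fun a => r a v), (s - out r U a) := by
  obtain ⟨D, hD⟩ : ∃ D, D = U.filter (r v) := ⟨_, rfl⟩
  obtain ⟨P, hP⟩ : ∃ P, P = U.filter (fun a => c a = c v) := ⟨_, rfl⟩
  obtain ⟨A, hA⟩ : ∃ A, A = U.filter (fun a => r a v) := ⟨_, rfl⟩
  have mD : ∀ a, a ∈ D ↔ a ∈ U ∧ r v a := fun a => by rw [hD, mem_filter]
  have mP : ∀ a, a ∈ P ↔ a ∈ U ∧ c a = c v := fun a => by rw [hP, mem_filter]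
  have mA : ∀ a, a ∈ A ↔ a ∈ U ∧ r a v := fun a => by rw [hA, mem_filter]
  have hne : ∀ a ∈ U, v ≠ a := fun a ha h => hv (h ▸ ha)
  rw [← hP, ← hA]
  have h1 := Sol_clique hx hV G v D (fun a ha b hb hab => by
    rw [mD] at ha hb
    exact hG.cone v a b hab ha.2 hb.2)
  have h2 := Sol_clique hx hV G v P (fun a ha b hb hab => by
    rw [mP] at ha hb
    exact hG.mono v a b (hne a ha.1) (hne b hb.1) hab ha.2.symm hb.2.symm)
  have h3 := finrank_Sol_union_le (K := K) G x v D P
  have h4 : out r U v = D.card := by rw [hD]; rfl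
  have key : ∀ n : ℕ, ∀ A' : Finset V, A'.card = n → A' ⊆ A →
      (∀ a ∈ A', ∀ b ∈ A, r a b → b ∈ A') →
      finrank K (Sol G x v ((D ∪ P) ∪ A')) ≤ finrank K (Sol G x v (D ∪ P)) +
        ∑ a ∈ A', (s - out r U a) := by
    intro n
    induction n with
    | zero =>
      intro A' hA' _ _
      rw [card_eq_zero] at hA'
      subst hA'
      rw [union_empty, sum_empty, add_zero]
    | succ n ih =>
      intro A' hA' hsub hcl
      have hne' : A'.Nonempty := by
        rw [← card_pos]
        omega
      obtain ⟨a, ha, hsrc⟩ := exists_source h hne' (i := i) (j := j) (fun w hw =>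
        hij w ((mA w).1 (hsub hw)).1 ((mA w).1 (hsub hw)).2)
      have haA := (mA a).1 (hsub ha)
      have h5 := ih (A'.erase a) (by rw [card_erase_of_mem ha, hA']; rfl)
        ((erase_subset _ _).trans hsub) (by
          intro a2 ha2 b hb hab
          rw [mem_erase] at ha2 ⊢
          refine ⟨?_, hcl a2 ha2.2 b hb hab⟩
          rintro rfl
          exact hsrc a2 ha2.2 hab)
      have h6 := Sol_insert_greedy hx hV G v ((D ∪ P) ∪ A'.erase a) (U.filter (r a)) a (by
          intro b hb
          rw [mem_filter] at hb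
          rw [mem_union, mem_union, mD, mP, mem_erase]
          by_cases h7 : c b = c v
          · exact Or.inl (Or.inr ⟨hb.1, h7⟩)
          · rcases h.tot b v h7 with h8 | h8
            · refine Or.inr ⟨?_, hcl a ha b ((mA b).2 ⟨hb.1, h8⟩) hb.2⟩
              rintro rfl
              exact h.ne _ _ hb.2 rfl
            · exact Or.inl (Or.inl ⟨hb.1, h8⟩)) (by
          intro b hb
          rw [mem_filter] at hb
          refine ⟨?_, (hG.cone a v b (hne b hb.1) haA.2 hb.2).swap12⟩
          rintro rfl
          exact h.ne _ _ hb.2 rfl)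
      have h7 : insert a ((D ∪ P) ∪ A'.erase a) = (D ∪ P) ∪ A' := by
        rw [← union_insert, insert_erase ha]
      rw [h7] at h6
      have h8 := add_sum_erase A' (fun a => s - out r U a) ha
      have h9 : out r U a = (U.filter (r a)).card := rfl
      omega
  have h5 := key A.card A rfl Subset.rfl (fun a _ b hb _ => hb)
  have h6 : (D ∪ P) ∪ A = U := by
    ext b
    rw [mem_union, mem_union, mD, mP, mA]
    constructor
    · rintro ((h7 | h7) | h7) <;> exact h7.1
    · intro hb
      by_cases h7 : c b = c v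
      · exact Or.inl (Or.inr ⟨hb, h7⟩)
      · rcases h.tot b v h7 with h8 | h8
        · exact Or.inr ⟨hb, h8⟩
        · exact Or.inl (Or.inl ⟨hb, h8⟩)
  rw [h6] at h5
  rw [h4]
  omega

omit [Fintype V] in
theorem pot_insert {c : V → κ} {r : V → V → Prop} [DecidableRel r] (h : Ori c r)
    {U : Finset V} {v : V} (hv : v ∉ U) :
    pot s c r (insert v U) + ∑ a ∈ U.filter (fun a => r a v), (s - out r U a) =
      pot s c r U + cc s (out r U v) + cc s (U.filter (fun a => c a = c v)).card := by
  have hirr : ∀ a, ¬ r a a := fun a ha => h.ne _ _ ha rfl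
  have h1 : out r (insert v U) v = out r U v := by
    unfold out
    rw [filter_insert, if_neg (hirr v)]
  have h2 : ∀ a ∈ U, cc s (out r (insert v U) a) + (if r a v then s - out r U a else 0) =
      cc s (out r U a) := by
    intro a _
    unfold out
    rw [filter_insert]
    split_ifs with h3
    · rw [card_insert_of_notMem (fun h4 => hv (mem_filter.1 h4).1)]
      exact (cc_succ s _).symm
    · rw [add_zero]
  have h3 : ∑ i : κ, gg s ((insert v U).filter (fun a => c a = i)).card =
      ∑ i : κ, gg s (U.filter (fun a => c a = i)).card +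
        cc s (U.filter (fun a => c a = c v)).card := by
    have h4 : ∀ i : κ, gg s ((insert v U).filter (fun a => c a = i)).card =
        gg s (U.filter (fun a => c a = i)).card +
          (if i = c v then cc s (U.filter (fun a => c a = c v)).card else 0) := by
      intro i
      rw [filter_insert]
      by_cases h5 : c v = i
      · subst h5
        rw [if_pos rfl, if_pos rfl, card_insert_of_notMem (fun h4 => hv (mem_filter.1 h4).1),
          gg_succ]
      · rw [if_neg h5, if_neg (fun h6 => h5 h6.symm), add_zero]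
    rw [sum_congr rfl (fun i _ => h4 i), sum_add_distrib, sum_ite_eq' univ (c v),
      if_pos (mem_univ _)]
  unfold pot
  rw [sum_insert hv, h1, h3, sum_filter, ← sum_congr rfl h2, sum_add_distrib]
  ring

omit [Fintype V] [DecidableEq V] in
/-- With at most four classes some vertex has its in-neighbours in two classes. -/
theorem exists_vertex {c : V → Fin 4} {r : V → V → Prop} (h : Ori c r)
    {U : Finset V} (hU : U.Nonempty) :
    ∃ v ∈ U, ∃ i j : Fin 4, ∀ a ∈ U, r a v → c a = i ∨ c a = j := by
  classical
  by_cases h1 : ∃ a ∈ U, ∃ b ∈ U, c a ≠ c b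
  · obtain ⟨a, ha, b, hb, hab⟩ := h1
    have hne : (U.filter (fun w => c w = c a ∨ c w = c b)).Nonempty :=
      ⟨a, mem_filter.2 ⟨ha, Or.inl rfl⟩⟩
    obtain ⟨v, hv, hsrc⟩ := exists_source h hne (i := c a) (j := c b)
      (fun w hw => (mem_filter.1 hw).2)
    obtain ⟨i, j, hij⟩ : ∃ i j : Fin 4, ∀ y, y ≠ c a → y ≠ c b → y = i ∨ y = j := by
      revert hab
      generalize c a = y
      generalize c b = z
      revert y z
      decide
    refine ⟨v, (mem_filter.1 hv).1, i, j, fun w hw hr => ?_⟩
    refine hij (c w) ?_ ?_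
    · intro h2
      exact hsrc w (mem_filter.2 ⟨hw, Or.inl h2⟩) hr
    · intro h2
      exact hsrc w (mem_filter.2 ⟨hw, Or.inr h2⟩) hr
  · push Not at h1
    obtain ⟨v, hv⟩ := hU
    exact ⟨v, hv, 0, 0, fun a ha hr => absurd (h1 a ha v hv) (h.ne _ _ hr)⟩

theorem YSp_bound {x : V → Fin s → K} (hx : GenPos x) (hV : s ≤ Fintype.card V)
    {G : Finset (Finset V)} {c : V → Fin 4} {r : V → V → Prop} [DecidableRel r] (h : Ori c r)
    (hG : HasFDF G c r) : ∀ n : ℕ, ∀ U : Finset V, U.card = n →
    finrank K (YSp G x U) + pot s c r U ≤ s * (s + 1) * U.card := by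
  intro n
  induction n with
  | zero =>
    intro U hU
    rw [card_eq_zero] at hU
    subst hU
    rw [finrank_YSp_empty]
    unfold pot
    simp [gg]
  | succ n ih =>
    intro U hU
    have hne : U.Nonempty := by
      rw [← card_pos]
      omega
    obtain ⟨v, hv, i, j, hij⟩ := exists_vertex h hne
    have hv' : v ∉ U.erase v := notMem_erase v U
    have h0 := ih (U.erase v) (by rw [card_erase_of_mem hv, hU]; rfl)
    have h1 := finrank_YSp_insert_le G x (U.erase v) v hv'
    have h2 := Sol_bound hx hV h hG hv' (i := i) (j := j)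
      (fun a ha hr => hij a (mem_of_mem_erase ha) hr)
    have h3 := pot_insert (s := s) h hv'
    have h4 := two_cc_zero s
    rw [insert_erase hv] at h1 h3
    have h5 : U.card = (U.erase v).card + 1 := by
      rw [card_erase_of_mem hv]
      omega
    rw [h5, mul_add, mul_one]
    omega

end alg

end FM

end KalaiRank
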