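import Pool.Agent.Lib.MP_8317a8_co.FD.Main
import Pool.Agent.Lib.MP_8317a8_co.FM.Bound

set_option autoImplicit false

/-!
# Fon-Der-Flaass 3-graphs of orientations of complete multipartite graphs
-/

namespace KalaiRank

open Finset Module

namespace FM

open FD

section count

variable {V κ : Type*} [DecidableEq V] {G : Finset (Finset V)} {c : V → κ} {r : V → V → Prop}

theorem tri_mem (G : Finset (Finset V)) {S : Finset V} {x y z : V} (hx : x ∈ S) (hy : y ∈ S)
    (hz : z ∈ S) (ht : Tri G x y z) : ∃ e ∈ G, e ⊆ S := by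
  refine ⟨{x, y, z}, ht, ?_⟩
  intro w hw
  rw [mem_insert, mem_insert, mem_singleton] at hw
  rcases hw with rfl | rfl | rfl
  · exact hx
  · exact hy
  · exact hz

/-- The 3-graphs of the family satisfy the hypothesis of the problem. -/
theorem covers4 (h : Ori c r) (hG : HasFDF G c r) (S : Finset V) (hS : S.card = 4) :
    ∃ e ∈ G, e ⊆ S := by
  classical
  by_cases hinj : ∃ a ∈ S, ∃ a' ∈ S, a ≠ a' ∧ c a = c a'
  · obtain ⟨a, ha, a', ha', hne, hc⟩ := hinj
    obtain ⟨b, b', hbb, hbS⟩ : ∃ b b', b ≠ b' ∧ (S.erase a).erase a' = {b, b'} := by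
      rw [← card_eq_two, card_erase_of_mem (mem_erase.2 ⟨hne.symm, ha'⟩), card_erase_of_mem ha, hS]
    have hb : b ∈ (S.erase a).erase a' := by rw [hbS]; simp
    have hb' : b' ∈ (S.erase a).erase a' := by rw [hbS]; simp
    rw [mem_erase, mem_erase] at hb hb'
    by_cases h1 : c a = c b
    · exact tri_mem G ha ha' hb.2.2 (hG.mono a a' b hne hb.2.1.symm hb.1.symm hc h1)
    by_cases h2 : c a = c b'
    · exact tri_mem G ha ha' hb'.2.2 (hG.mono a a' b' hne hb'.2.1.symm hb'.1.symm hc h2)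
    by_contra hcon
    have key : ∀ x y z, x ∈ S → y ∈ S → z ∈ S → y ≠ z → r x y → ¬ r x z :=
      fun x y z hx hy hz hyz h5 h6 => hcon (tri_mem G hx hy hz (hG.cone x y z hyz h5 h6))
    have h1' : c a' ≠ c b := by rw [← hc]; exact h1
    have h2' : c a' ≠ c b' := by rw [← hc]; exact h2
    rcases h.tot a b h1 with h3 | h3
    · have h4 := (h.tot a b' h2).resolve_left (key a b b' ha hb.2.2 hb'.2.2 hbb h3)
      have h5 := (h.tot a' b' h2').resolve_right (key b' a a' hb'.2.2 ha ha' hne h4)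
      have h6 := (h.tot a' b h1').resolve_left (key a' b' b ha' hb'.2.2 hb.2.2 hbb.symm h5)
      by_cases h7 : c b = c b'
      · exact h.c4 a a' b b' hc h7 h3 h6 h5 h4
      · rcases h.tot b b' h7 with h8 | h8
        · exact key b a' b' hb.2.2 ha' hb'.2.2 hb'.1.symm h6 h8
        · exact key b' a b hb'.2.2 ha hb.2.2 hb.2.1.symm h4 h8
    · have h4 := (h.tot a' b h1').resolve_right (key b a a' hb.2.2 ha ha' hne h3)
      have h5 := (h.tot a' b' h2').resolve_left (key a' b b' ha' hb.2.2 hb'.2.2 hbb h4)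
      have h6 := (h.tot a b' h2).resolve_right (key b' a' a hb'.2.2 ha' ha hne.symm h5)
      by_cases h7 : c b = c b'
      · exact h.c4 a a' b' b hc h7.symm h6 h5 h4 h3
      · rcases h.tot b b' h7 with h8 | h8
        · exact key b a b' hb.2.2 ha hb'.2.2 hb'.2.1.symm h3 h8
        · exact key b' a' b hb'.2.2 ha' hb.2.2 hb.1.symm h5 h8
  · -- four different classes
    have hdiff : ∀ a ∈ S, ∀ a' ∈ S, a ≠ a' → c a ≠ c a' := fun a ha a' ha' hne hc =>
      hinj ⟨a, ha, a', ha', hne, hc⟩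
    obtain ⟨x, y, z, w, hxy, hxz, hxw, hyz, hyw, hzw, rfl⟩ := card_eq_four.1 hS
    by_contra hcon
    have mx : x ∈ ({x, y, z, w} : Finset V) := by simp
    have my : y ∈ ({x, y, z, w} : Finset V) := by simp
    have mz : z ∈ ({x, y, z, w} : Finset V) := by simp
    have mw : w ∈ ({x, y, z, w} : Finset V) := by simp
    have key : ∀ a b d, a ∈ ({x, y, z, w} : Finset V) → b ∈ ({x, y, z, w} : Finset V) →
        d ∈ ({x, y, z, w} : Finset V) → b ≠ d → r a b → ¬ r a d :=
      fun a b d ha hb hd hbd h5 h6 => hcon (tri_mem G ha hb hd (hG.cone a b d hbd h5 h6))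
    have t1 := h.tot x y (hdiff x mx y my hxy)
    have t2 := h.tot x z (hdiff x mx z mz hxz)
    have t3 := h.tot x w (hdiff x mx w mw hxw)
    have t4 := h.tot y z (hdiff y my z mz hyz)
    have t5 := h.tot y w (hdiff y my w mw hyw)
    have t6 := h.tot z w (hdiff z mz w mw hzw)
    have k1 := key x y z mx my mz hyz
    have k2 := key x y w mx my mw hyw
    have k4 := key y x z my mx mz hxz
    have k5 := key y x w my mx mw hxw
    have k8 := key z x w mz mx mw hxw
    have k9 := key z y w mz my mw hyw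
    have k11 := key w x z mw mx mz hxz
    have k12 := key w y z mw my mz hyz
    rcases t1 with h1 | h1
    · have h3 := t2.resolve_left (k1 h1)
      exact k11 (t3.resolve_left (k2 h1)) (t6.resolve_left (k8 h3))
    · have h3 := t4.resolve_left (k4 h1)
      exact k12 (t5.resolve_left (k5 h1)) (t6.resolve_left (k9 h3))

variable [DecidableEq κ] [DecidableRel r] [Fintype V]

theorem card_ge (h : Ori c r) (hG : HasFDF G c r) :
    ∑ v : V, (out r univ v).choose 2 + ∑ i ∈ univ.image c, (cl c univ i).card.choose 3 ≤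
      G.card := by
  obtain ⟨cone, hcone⟩ : ∃ cone : V → Finset (Finset V), cone = fun v =>
    ((univ.filter (r v)).powersetCard 2).image (insert v) := ⟨_, rfl⟩
  obtain ⟨mono, hmono⟩ : ∃ mono : κ → Finset (Finset V), mono = fun i =>
    (cl c univ i).powersetCard 3 := ⟨_, rfl⟩
  have mcone : ∀ v e, e ∈ cone v ↔ ∃ a b, a ≠ b ∧ r v a ∧ r v b ∧ e = {v, a, b} := by
    intro v e
    rw [hcone]
    simp only [mem_image, mem_powersetCard]
    constructor
    · rintro ⟨f, ⟨hf, hf2⟩, rfl⟩
      obtain ⟨a, b, hab, rfl⟩ := card_eq_two.1 hf2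
      refine ⟨a, b, hab, ?_, ?_, rfl⟩
      · exact (mem_filter.1 (hf (by simp))).2
      · exact (mem_filter.1 (hf (by simp))).2
    · rintro ⟨a, b, hab, ha, hb, rfl⟩
      refine ⟨{a, b}, ⟨?_, card_pair hab⟩, rfl⟩
      intro w hw
      rw [mem_insert, mem_singleton] at hw
      rcases hw with rfl | rfl
      · exact mem_filter.2 ⟨mem_univ _, ha⟩
      · exact mem_filter.2 ⟨mem_univ _, hb⟩
  have ccone : ∀ v, (cone v).card = (out r univ v).choose 2 := by
    intro v
    rw [hcone]
    show (((univ.filter (r v)).powersetCard 2).image (insert v)).card = _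
    rw [card_image_of_injOn, card_powersetCard]
    · rfl
    · intro e he f hf hef
      rw [mem_coe, mem_powersetCard] at he hf
      have h1 : v ∉ e := fun h2 => h.ne _ _ (mem_filter.1 (he.1 h2)).2 rfl
      have h2 : v ∉ f := fun h3 => h.ne _ _ (mem_filter.1 (hf.1 h3)).2 rfl
      have h3 : insert v e = insert v f := hef
      rw [← erase_insert h1, h3, erase_insert h2]
  have cmono : ∀ i, (mono i).card = (cl c univ i).card.choose 3 := by
    intro i
    rw [hmono]
    exact card_powersetCard _ _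
  have hd1 : ∀ v ∈ (univ : Finset V), ∀ w ∈ (univ : Finset V), v ≠ w →
      Disjoint (cone v) (cone w) := by
    intro v _ w _ hvw
    rw [disjoint_left]
    intro e he he'
    obtain ⟨a, b, hab, ha, hb, rfl⟩ := (mcone v e).1 he
    obtain ⟨a', b', hab', ha', hb', heq⟩ := (mcone w _).1 he'
    have h1 : w ∈ ({v, a, b} : Finset V) := by rw [heq]; simp
    have h2 : v ∈ ({w, a', b'} : Finset V) := by rw [← heq]; simp
    have h3 : r v w := by
      rw [mem_insert, mem_insert, mem_singleton] at h1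
      rcases h1 with h1 | h1 | h1
      · exact absurd h1.symm hvw
      · rw [h1]; exact ha
      · rw [h1]; exact hb
    have h4 : r w v := by
      rw [mem_insert, mem_insert, mem_singleton] at h2
      rcases h2 with h2 | h2 | h2
      · exact absurd h2 hvw
      · rw [h2]; exact ha'
      · rw [h2]; exact hb'
    exact h.asym _ _ h3 h4
  have hd2 : ∀ i ∈ univ.image c, ∀ j ∈ univ.image c, i ≠ j → Disjoint (mono i) (mono j) := by
    intro i _ j _ hij
    rw [disjoint_left]
    intro e he he'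
    rw [hmono] at he he'
    simp only [mem_powersetCard] at he he'
    have h1 : e.Nonempty := by
      rw [← card_pos]
      omega
    obtain ⟨a, ha⟩ := h1
    exact hij (((mem_cl univ i a).1 (he.1 ha)).2.symm.trans ((mem_cl univ j a).1 (he'.1 ha)).2)
  have hd3 : Disjoint (univ.biUnion cone) ((univ.image c).biUnion mono) := by
    rw [disjoint_left]
    intro e he he'
    rw [mem_biUnion] at he he'
    obtain ⟨v, _, he⟩ := he
    obtain ⟨i, _, he'⟩ := he'
    obtain ⟨a, b, hab, ha, hb, rfl⟩ := (mcone v e).1 he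
    rw [hmono] at he'
    simp only [mem_powersetCard] at he'
    have h1 := ((mem_cl univ i v).1 (he'.1 (by simp))).2
    have h2 := ((mem_cl univ i a).1 (he'.1 (by simp))).2
    exact h.ne _ _ ha (h1.trans h2.symm)
  have hsub : univ.biUnion cone ∪ (univ.image c).biUnion mono ⊆ G := by
    intro e he
    rw [mem_union, mem_biUnion, mem_biUnion] at he
    rcases he with ⟨v, _, he⟩ | ⟨i, _, he⟩
    · obtain ⟨a, b, hab, ha, hb, rfl⟩ := (mcone v e).1 he
      exact hG.cone v a b hab ha hb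
    · rw [hmono] at he
      simp only [mem_powersetCard] at he
      obtain ⟨a, b, d, hab, had, hbd, rfl⟩ := card_eq_three.1 he.2
      have ha := ((mem_cl univ i a).1 (he.1 (by simp))).2
      have hb := ((mem_cl univ i b).1 (he.1 (by simp))).2
      have hd := ((mem_cl univ i d).1 (he.1 (by simp))).2
      exact hG.mono a b d hab had hbd (ha.trans hb.symm) (ha.trans hd.symm)
  have h1 := card_le_card hsub
  rw [card_union_of_disjoint hd3, card_biUnion hd1, card_biUnion hd2] at h1
  rw [sum_congr rfl (fun v _ => ccone v), sum_congr rfl (fun i _ => cmono i)] at h1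
  exact h1

omit [DecidableEq V] [DecidableEq κ] [DecidableRel r] [Fintype V] in
theorem sum_range_choose (d : ℕ) : ∑ j ∈ range d, j = d.choose 2 := by
  induction d with
  | zero => simp
  | succ d ih =>
    have h3 : (d + 1).choose 2 = d.choose 1 + d.choose 2 := Nat.choose_succ_succ d 1
    rw [Nat.choose_one_right] at h3
    rw [sum_range_succ, ih, h3, add_comm]

theorem choose_two_ge (s d : ℕ) : 2 * (s * d) + 2 * cc s d ≤ 2 * d.choose 2 + s * (s + 1) := by
  have h1 := sum_sub_add_cc s d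
  have h2 := two_cc_zero s
  have h3 : s * d ≤ ∑ j ∈ range d, (s - j) + d.choose 2 := by
    rw [← sum_range_choose, ← sum_add_distrib, mul_comm, ← smul_eq_mul]
    nth_rewrite 1 [← card_range d]
    rw [← sum_const]
    exact sum_le_sum fun j _ => by omega
  omega

theorem choose_three_ge (s p : ℕ) :
    2 * (s * p.choose 2) + 2 * gg s p ≤ 2 * p.choose 3 + p * (s * (s + 1)) := by
  induction p with
  | zero => simp [gg]
  | succ p ih =>
    have h1 := choose_two_ge s p
    have h2 : (p + 1).choose 3 = p.choose 2 + p.choose 3 := Nat.choose_succ_succ p 2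
    have h3 : (p + 1).choose 2 = p.choose 1 + p.choose 2 := Nat.choose_succ_succ p 1
    rw [Nat.choose_one_right] at h3
    rw [h2, h3, gg_succ, mul_add s, add_mul p, one_mul]
    omega

theorem card_bound {n s : ℕ} (hn : 3 * s ≤ n) {G : Finset (Finset (Fin n))} {c : Fin n → κ}
    {r : Fin n → Fin n → Prop} (h : Ori c r) (hG : HasFDF G c r) :
    (∑ i ∈ Finset.Icc 1 s, (((n - 2 * i).choose 2 : ℤ) - (i.choose 2 : ℤ))) ≤ (G.card : ℤ) := by
  classical
  have h1 := card_ge h hG
  have h2 := pot_ge h s univ (by rw [card_univ, Fintype.card_fin]; exact hn)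
  have h3 := two_arcs h univ
  have h4 := sum_formula n s (by omega)
  have h5 := sum_cl (c := c) (univ : Finset (Fin n))
  rw [card_univ, Fintype.card_fin] at h3 h5
  -- degrees
  have h6 : 2 * (s * ∑ v : Fin n, out r univ v) + 2 * ∑ v : Fin n, cc s (out r univ v) ≤
      2 * ∑ v : Fin n, (out r univ v).choose 2 + n * (s * (s + 1)) := by
    have h7 : ∑ v : Fin n, (2 * (s * out r univ v) + 2 * cc s (out r univ v)) ≤
        ∑ v : Fin n, (2 * (out r univ v).choose 2 + s * (s + 1)) :=
      sum_le_sum fun v _ => choose_two_ge s _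
    rw [sum_add_distrib, sum_add_distrib, sum_const, card_univ, Fintype.card_fin, smul_eq_mul,
      ← mul_sum, ← mul_sum, ← mul_sum, ← mul_sum] at h7
    exact h7
  -- classes
  have h7 : 2 * (s * ∑ i ∈ univ.image c, (cl c univ i).card.choose 2) +
      2 * ∑ i ∈ univ.image c, gg s (cl c univ i).card ≤
      2 * ∑ i ∈ univ.image c, (cl c univ i).card.choose 3 + n * (s * (s + 1)) := by
    have h8 : ∑ i ∈ univ.image c, (2 * (s * (cl c univ i).card.choose 2) +
        2 * gg s (cl c univ i).card) ≤ ∑ i ∈ univ.image c, (2 * (cl c univ i).card.choose 3 +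
          (cl c univ i).card * (s * (s + 1))) := sum_le_sum fun i _ => choose_three_ge s _
    rw [sum_add_distrib, sum_add_distrib, ← sum_mul, h5, ← mul_sum, ← mul_sum, ← mul_sum,
      ← mul_sum] at h8
    exact h8
  have h8 : 2 * ∑ i ∈ univ.image c, ((cl c univ i).card.choose 2 : ℤ) + n =
      ∑ i ∈ univ.image c, ((cl c univ i).card : ℤ) ^ 2 := by
    have h9 : ((n : ℕ) : ℤ) = ∑ i ∈ univ.image c, ((cl c univ i).card : ℤ) := by
      rw [← Nat.cast_sum, h5]
    rw [h9, mul_sum, ← sum_add_distrib]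
    refine sum_congr rfl fun i _ => ?_
    rw [two_choose]
    ring
  obtain ⟨D, hD⟩ : ∃ D, D = ∑ v : Fin n, out r univ v := ⟨_, rfl⟩
  obtain ⟨C, hC⟩ : ∃ C, C = ∑ v : Fin n, cc s (out r univ v) := ⟨_, rfl⟩
  obtain ⟨E, hE⟩ : ∃ E, E = ∑ v : Fin n, (out r univ v).choose 2 := ⟨_, rfl⟩
  obtain ⟨P2, hP2⟩ : ∃ P2, P2 = ∑ i ∈ univ.image c, (cl c univ i).card.choose 2 := ⟨_, rfl⟩
  obtain ⟨P3, hP3⟩ : ∃ P3, P3 = ∑ i ∈ univ.image c, (cl c univ i).card.choose 3 := ⟨_, rfl⟩
  obtain ⟨Gg, hGg⟩ : ∃ Gg, Gg = ∑ i ∈ univ.image c, gg s (cl c univ i).card := ⟨_, rfl⟩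
  obtain ⟨Q, hQ⟩ : ∃ Q, Q = ∑ i ∈ univ.image c, (cl c univ i).card ^ 2 := ⟨_, rfl⟩
  rw [← hE, ← hP3] at h1
  rw [← hC, ← hGg] at h2
  rw [← hD, ← hQ] at h3
  rw [← hD, ← hC, ← hE] at h6
  rw [← hP2, ← hGg, ← hP3] at h7
  have e8 : 2 * (P2 : ℤ) + n = Q := by
    rw [hP2, hQ]
    push_cast
    exact h8
  have e3 : 2 * (D : ℤ) + Q = (n : ℤ) ^ 2 := by exact_mod_cast h3
  have e1 : (E : ℤ) + P3 ≤ G.card := by exact_mod_cast h1
  have e2 : (s : ℤ) * (s + 1) * (s + 2) ≤ 2 * (C + Gg) := by exact_mod_cast h2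
  have e6 : 2 * ((s : ℤ) * D) + 2 * C ≤ 2 * E + n * (s * (s + 1)) := by exact_mod_cast h6
  have e7 : 2 * ((s : ℤ) * P2) + 2 * Gg ≤ 2 * P3 + n * (s * (s + 1)) := by exact_mod_cast h7
  have e9 := two_choose n
  have e10 : 2 * ((s : ℤ) * D) + 2 * ((s : ℤ) * P2) = s * (2 * (n.choose 2 : ℤ)) := by
    rw [e9]
    linear_combination (s : ℤ) * e3 + (s : ℤ) * e8
  have e11 : 2 * (∑ i ∈ Finset.Icc 1 s, (((n - 2 * i).choose 2 : ℤ) - (i.choose 2 : ℤ))) ≤
      2 * (G.card : ℤ) := by
    rw [h4]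
    linarith
  linarith

end count

theorem rank_bound4 {n s : ℕ} (hn : 3 * s ≤ n) {G : Finset (Finset (Fin n))} {c : Fin n → Fin 4}
    {r : Fin n → Fin n → Prop} (h : Ori c r) (hG : HasFDF G c r) :
    (∑ i ∈ Finset.Icc 1 s, (((n - 2 * i).choose 2 : ℤ) - (i.choose 2 : ℤ))) ≤
      (((kmat n s G).rank : ℕ) : ℤ) := by
  classical
  have hV : s ≤ Fintype.card (Fin n) := by
    rw [Fintype.card_fin]
    omega
  have h1 := YSp_bound (genPos_generic n s) hV h hG _ Finset.univ rfl
  have h2 := rank_kmat n s G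
  have h3 : s * (s + 1) * (s + 2) ≤ 2 * pot s c r Finset.univ := by
    refine (pot_ge h s Finset.univ (by rw [card_univ, Fintype.card_fin]; exact hn)).trans ?_
    refine Nat.mul_le_mul_left _ (Nat.add_le_add_left ?_ _)
    exact sum_le_sum_of_subset (f := fun i => gg s (cl c univ i).card) (subset_univ _)
  have h5 := sum_formula n s (by omega)
  rw [card_univ, Fintype.card_fin] at h1
  obtain ⟨Y, hY⟩ : ∃ Y, Y = finrank (KK n s) (YSp G (gx n s) Finset.univ) := ⟨_, rfl⟩
  have h1' : Y + pot s c r Finset.univ ≤ s * (s + 1) * n := by rw [hY]; exact h1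
  rw [← hY] at h2
  have h6 : (2 : ℤ) * Y + s * (s + 1) * (s + 2) ≤ 2 * (s * (s + 1) * n) := by
    have h7 : 2 * Y + s * (s + 1) * (s + 2) ≤ 2 * (s * (s + 1) * n) := by omega
    exact_mod_cast h7
  have h8 : (s : ℤ) * (n.choose 2 : ℤ) ≤ ((kmat n s G).rank : ℤ) + Y := by
    exact_mod_cast h2
  have h9 : 2 * (∑ i ∈ Finset.Icc 1 s, (((n - 2 * i).choose 2 : ℤ) - (i.choose 2 : ℤ))) ≤
      2 * (((kmat n s G).rank : ℕ) : ℤ) := by
    rw [h5]
    linarith
  linarith

theorem rank_bound {n s : ℕ} (hn : 3 * s ≤ n) {κ : Type*} [DecidableEq κ]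
    {G : Finset (Finset (Fin n))} {c : Fin n → κ}
    {r : Fin n → Fin n → Prop} (h : Ori c r) (hG : HasFDF G c r)
    (h4 : (univ.image c).card ≤ 4) :
    (∑ i ∈ Finset.Icc 1 s, (((n - 2 * i).choose 2 : ℤ) - (i.choose 2 : ℤ))) ≤
      (((kmat n s G).rank : ℕ) : ℤ) := by
  obtain ⟨c', hc'⟩ : ∃ c' : Fin n → Fin 4, ∀ a b, c' a = c' b ↔ c a = c b := by
    refine ⟨fun a => Fin.castLE h4 ((univ.image c).equivFin ⟨c a, mem_image_of_mem c (mem_univ a)⟩),
      fun a b => ?_⟩
    rw [Fin.castLE_inj, EmbeddingLike.apply_eq_iff_eq, Subtype.mk.injEq]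
  refine rank_bound4 hn (c := c') (r := r) ?_ ?_
  · exact
      { tot := fun a b hab => h.tot a b (fun hc => hab ((hc' a b).2 hc))
        asym := h.asym
        ne := fun a b hab hc => h.ne a b hab ((hc' a b).1 hc)
        c4 := fun a a' b b' h1 h2 => h.c4 a a' b b' ((hc' a a').1 h1) ((hc' b b').1 h2) }
  · exact
      { mono := fun a b d hab had hbd h1 h2 =>
          hG.mono a b d hab had hbd ((hc' a b).1 h1) ((hc' a d).1 h2)
        cone := hG.cone }

end FM

end KalaiRank
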